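import Pool.Agent.helper32.QS.Spec

set_option autoImplicit false

namespace QS

open scoped BigOperators commutatorElement Pointwise

theorem PERM_compl {S Ω : Type} [Group S] [Finite Ω] [MulAction S Ω] (x : S) (D : Set Ω)
    (h : ∀ ω ∈ D, x • ω ∈ D) : ∀ ω : Ω, x • ω ∈ D → ω ∈ D := by
  have h1 : (fun ω : Ω => x • ω) '' D ⊆ D := by
    rintro _ ⟨ω, hω, rfl⟩
    exact h ω hω
  have h2 : (fun ω : Ω => x • ω) '' D = D := by
    apply Set.eq_of_subset_of_ncard_le h1 _ (Set.toFinite _)
    rw [Set.ncard_image_of_injective _ (MulAction.injective x)]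
  intro ω hω
  rw [← h2] at hω
  obtain ⟨ω', h3, h4⟩ := hω
  have h5 := MulAction.injective x h4
  rw [← h5]; exact h3

theorem PERM_step (p : ℕ) (S Ω : Type) [Group S] [Finite S] [Finite Ω] [Nonempty Ω]
    [MulAction S Ω] [MulAction.IsPretransitive S Ω] (B : Set Ω) (hB : MulAction.IsBlock S B)
    (hne : ¬ B.Subsingleton) (hu : B ≠ Set.univ)
    (IH : ∀ (S' Ω' : Type) [Group S'] [Finite S'] [Finite Ω'] [Nonempty Ω']
      [MulAction S' Ω'] [MulAction.IsPretransitive S' Ω'], Nat.card Ω' < Nat.card Ω →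
      Group.IsSolvable S' → PCon p S' Ω') (hs : Group.IsSolvable S) : PCon p S Ω := by
  classical
  have hBne : B.Nonempty := by
    rw [Set.nonempty_iff_ne_empty]
    intro h0
    exact hne (by rw [h0]; exact Set.subsingleton_empty)
  obtain ⟨b₀, hb₀⟩ := hBne
  -- the stabiliser
  let H := MulAction.stabilizer S B
  have hH : ∀ h : S, h ∈ H ↔ h • B = B := fun h => MulAction.mem_stabilizer_iff
  have hHm : ∀ h : S, h ∈ H → ∀ b ∈ B, h • b ∈ B := by
    intro h hh b hb
    have := Set.smul_mem_smul_set (a := h) hb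
    rw [(hH h).1 hh] at this
    exact this
  letI act : MulAction H B :=
    { smul := fun h b => ⟨(h : S) • (b : Ω), hHm _ h.2 _ b.2⟩
      one_smul := fun b => Subtype.ext (one_smul S (b : Ω))
      mul_smul := fun g h b => Subtype.ext (mul_smul (g : S) (h : S) (b : Ω)) }
  have hact : ∀ (h : H) (b : B), ((h • b : B) : Ω) = (h : S) • (b : Ω) := fun _ _ => rfl
  haveI : Nonempty B := ⟨⟨b₀, hb₀⟩⟩
  -- two translates meeting are equal
  have hblk : ∀ (g g' : S) (ω : Ω), ω ∈ g • B → ω ∈ g' • B → g • B = g' • B := by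
    intro g g' ω h1 h2
    by_contra hcon
    exact (Set.disjoint_left.1 (hB hcon)) h1 h2
  haveI hpre : MulAction.IsPretransitive H B := by
    constructor
    intro b b'
    obtain ⟨g, hg⟩ := MulAction.exists_smul_eq S (b : Ω) (b' : Ω)
    have h1 : (b' : Ω) ∈ g • B := by
      rw [← hg]; exact Set.smul_mem_smul_set b.2
    have h2 : (b' : Ω) ∈ (1 : S) • B := by rw [one_smul]; exact b'.2
    have h3 := hblk g 1 _ h1 h2
    rw [one_smul] at h3
    exact ⟨⟨g, (hH g).2 h3⟩, Subtype.ext hg⟩
  -- translates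
  let O := MulAction.orbit S B
  haveI : Nonempty O := ⟨⟨B, MulAction.mem_orbit_self B⟩⟩
  haveI : Finite O := Subtype.finite
  have hg : ∀ C : O, ∃ g : S, g • B = (C : Set Ω) := fun C => C.2
  choose gg hgg using hg
  let e : O × B → Ω := fun q => gg q.1 • (q.2 : Ω)
  have hemem : ∀ q : O × B, e q ∈ gg q.1 • B := fun q => Set.smul_mem_smul_set q.2.2
  have heinj : Function.Injective e := by
    intro q q' h
    have h1 := hemem q
    have h2 := hemem q'
    rw [← h] at h2
    have h3 := hblk _ _ _ h1 h2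
    rw [hgg, hgg] at h3
    have h4 : q.1 = q'.1 := Subtype.ext h3
    have h5 : (q.2 : Ω) = (q'.2 : Ω) := by
      have h6 : gg q.1 • (q.2 : Ω) = gg q'.1 • (q'.2 : Ω) := h
      rw [h4] at h6
      exact MulAction.injective _ h6
    exact Prod.ext h4 (Subtype.ext h5)
  have hesur : Function.Surjective e := by
    intro ω
    obtain ⟨g, hgω⟩ := MulAction.exists_smul_eq S b₀ ω
    let C : O := ⟨g • B, MulAction.mem_orbit B g⟩
    have h1 : ω ∈ gg C • B := by
      rw [hgg C, ← hgω]; exact Set.smul_mem_smul_set hb₀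
    obtain ⟨b, hb, hbω⟩ := h1
    exact ⟨(C, ⟨b, hb⟩), hbω⟩
  have hcard : Nat.card Ω = Nat.card O * Nat.card B := by
    rw [← Nat.card_prod]
    exact (Nat.card_congr (Equiv.ofBijective e ⟨heinj, hesur⟩)).symm
  have hO1 : 0 < Nat.card O := Nat.card_pos
  have hB2 : 2 ≤ Nat.card B := by
    rw [Set.not_subsingleton_iff] at hne
    haveI : Nontrivial B := hne.coe_sort
    exact Finite.one_lt_card
  have hBlt : Nat.card B < Nat.card Ω := by
    have h1 : B.ncard < Nat.card Ω := by
      rw [← Set.ncard_univ]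
      exact Set.ncard_lt_ncard (Set.ssubset_univ_iff.2 hu) (Set.toFinite _)
    rwa [← Nat.card_coe_set_eq] at h1
  have hOlt : Nat.card O < Nat.card Ω := by
    rw [hcard]; nlinarith
  obtain ⟨D1, hD1, hD1'⟩ := IH H B hBlt inferInstance
  obtain ⟨D2, hD2, hD2'⟩ := IH S O hOlt hs
  -- the set
  let T : O → Set B := fun C => if C ∈ D2 then D1ᶜ else D1
  let P : Set (O × B) := {q | q.2 ∈ T q.1}
  have hP : P = (D2ᶜ ×ˢ D1) ∪ (D2 ×ˢ D1ᶜ) := by
    ext q
    simp only [P, T, Set.mem_setOf_eq, Set.mem_union, Set.mem_prod, Set.mem_compl_iff]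
    by_cases h : q.1 ∈ D2
    · simp [h]
    · simp [h]
  have hPc : P.ncard = D2ᶜ.ncard * D1.ncard + D2.ncard * D1ᶜ.ncard := by
    rw [hP, Set.ncard_union_eq _ (Set.toFinite _) (Set.toFinite _), Set.ncard_prod, Set.ncard_prod]
    rw [Set.disjoint_left]
    rintro q ⟨h1, -⟩ ⟨h2, -⟩
    exact h1 h2
  have hd1 := Set.ncard_add_ncard_compl D1 (Set.toFinite _) (Set.toFinite _)
  have hd2 := Set.ncard_add_ncard_compl D2 (Set.toFinite _) (Set.toFinite _)
  refine ⟨e '' P, ?_, ?_⟩
  · rw [Set.ncard_image_of_injective _ heinj, hPc, hcard, ← hd1, ← hd2]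
    rw [← hd1] at hD1
    rw [← hd2] at hD2
    intro hcon
    have h1 : ((D2ᶜ.ncard : ℤ) - D2.ncard) * ((D1.ncard : ℤ) - D1ᶜ.ncard) = 0 := by
      have h2 : (2 : ℤ) * (D2ᶜ.ncard * D1.ncard + D2.ncard * D1ᶜ.ncard) =
          (D2.ncard + D2ᶜ.ncard) * (D1.ncard + D1ᶜ.ncard) := by exact_mod_cast hcon
      linear_combination h2
    rcases mul_eq_zero.1 h1 with h2 | h2
    · apply hD2
      have : D2ᶜ.ncard = D2.ncard := by omega
      omega
    · apply hD1
      have : D1.ncard = D1ᶜ.ncard := by omega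
      omega
  · intro x hxp hxD
    -- coordinates
    have hx : ∀ C : O, (gg (x • C))⁻¹ * x * gg C ∈ H := by
      intro C
      rw [hH, mul_smul, mul_smul, hgg C, inv_smul_eq_iff, hgg (x • C)]
      rfl
    have hxe : ∀ (C : O) (b : B), x • e (C, b) =
        e (x • C, (⟨_, hx C⟩ : H) • b) := by
      intro C b
      show x • gg C • (b : Ω) = gg (x • C) • (((gg (x • C))⁻¹ * x * gg C) • (b : Ω))
      rw [smul_smul, smul_smul]
      congr 1
      group
    have hxT : ∀ (C : O) (b : B), b ∈ T C → (⟨_, hx C⟩ : H) • b ∈ T (x • C) := by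
      intro C b hb
      have h1 := hxD (e (C, b)) ⟨(C, b), hb, rfl⟩
      rw [hxe] at h1
      obtain ⟨q, hq, hq'⟩ := h1
      have h2 := heinj hq'
      rw [h2] at hq
      exact hq
    have hTc : ∀ C : O, (T C).ncard ≤ (T (x • C)).ncard := by
      intro C
      have h1 : (fun b : B => (⟨_, hx C⟩ : H) • b) '' (T C) ⊆ T (x • C) := by
        rintro _ ⟨b, hb, rfl⟩
        exact hxT C b hb
      have h2 := Set.ncard_le_ncard h1 (Set.toFinite _)
      rwa [Set.ncard_image_of_injective _ (MulAction.injective _)] at h2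
    have hneq : D1.ncard ≠ D1ᶜ.ncard := by omega
    have hD2s : ∀ C ∈ D2, x • C ∈ D2 := by
      rcases lt_or_gt_of_ne hneq with hlt | hgt
      · intro C hC
        by_contra hcon
        have h1 := hTc C
        simp only [T, if_pos hC, if_neg hcon] at h1
        omega
      · have h2 : ∀ C ∈ D2ᶜ, x • C ∈ D2ᶜ := by
          intro C hC hcon
          have h1 := hTc C
          simp only [T, if_pos hcon, if_neg hC] at h1
          omega
        intro C hC
        by_contra hcon
        exact (PERM_compl x D2ᶜ h2 C hcon) hC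
    have hxpO : ∀ C : O, x ^ p • C = C := by
      intro C
      apply Subtype.ext
      show x ^ p • (C : Set Ω) = (C : Set Ω)
      ext ω
      rw [Set.mem_smul_set]
      constructor
      · rintro ⟨y, hy, rfl⟩
        rw [hxp]; exact hy
      · intro h; exact ⟨ω, h, hxp ω⟩
    have hxO := hD2' x hxpO hD2s
    have hy : ∀ (C : O), (gg C)⁻¹ * x * gg C ∈ H := by
      intro C
      have := hx C
      rwa [hxO C] at this
    have hye : ∀ (C : O) (b : B), x • e (C, b) = e (C, (⟨_, hy C⟩ : H) • b) := by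
      intro C b
      show x • gg C • (b : Ω) = gg C • (((gg C)⁻¹ * x * gg C) • (b : Ω))
      rw [smul_smul, smul_smul]
      congr 1
      group
    have hyT : ∀ (C : O) (b : B), b ∈ T C → (⟨_, hy C⟩ : H) • b ∈ T C := by
      intro C b hb
      have h1 := hxD (e (C, b)) ⟨(C, b), hb, rfl⟩
      rw [hye] at h1
      obtain ⟨q, hq, hq'⟩ := h1
      have h2 := heinj hq'
      rw [h2] at hq
      exact hq
    have hyD : ∀ C : O, ∀ b ∈ D1, (⟨_, hy C⟩ : H) • b ∈ D1 := by
      intro C
      by_cases hC : C ∈ D2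
      · have h1 : ∀ b ∈ D1ᶜ, (⟨_, hy C⟩ : H) • b ∈ D1ᶜ := by
          intro b hb
          have := hyT C b
          simp only [T, if_pos hC] at this
          exact this hb
        intro b hb
        by_contra hcon
        exact (PERM_compl (⟨_, hy C⟩ : H) D1ᶜ h1 b hcon) hb
      · intro b hb
        have := hyT C b
        simp only [T, if_neg hC] at this
        exact this hb
    have hyp : ∀ (C : O) (b : B), (⟨_, hy C⟩ : H) ^ p • b = b := by
      intro C b
      apply Subtype.ext
      show ((((⟨_, hy C⟩ : H) ^ p : H) : S)) • (b : Ω) = b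
      have h1 : (((⟨_, hy C⟩ : H) ^ p : H) : S) = (gg C)⁻¹ * x ^ p * gg C := by
        rw [Subgroup.coe_pow]
        have := conj_pow (i := p) (a := (gg C)⁻¹) (b := x)
        rw [inv_inv] at this
        exact this
      rw [h1, mul_smul, mul_smul, hxp, inv_smul_smul]
    intro ω
    obtain ⟨⟨C, b⟩, rfl⟩ := hesur ω
    rw [hye, hD1' _ (hyp C) (hyD C)]

theorem PERM (hPRI : PRI_stmt) : PERM_stmt := by
  intro p hp hp5
  have key : ∀ (N : ℕ) (S Ω : Type) [Group S] [Finite S] [Finite Ω] [Nonempty Ω]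
      [MulAction S Ω] [MulAction.IsPretransitive S Ω], Nat.card Ω < N → Group.IsSolvable S →
      PCon p S Ω := by
    intro N
    induction N with
    | zero => intro S Ω _ _ _ _ _ _ h _; omega
    | succ N IH =>
      intro S Ω _ _ _ _ _ _ hN hs
      by_cases hprim : ∀ B : Set Ω, MulAction.IsBlock S B → MulAction.IsTrivialBlock B
      · haveI : MulAction.IsPreprimitive S Ω :=
          { isTrivialBlock_of_isBlock := fun {B} hB => hprim B hB }
        exact hPRI p hp hp5 S Ω hs
      · push Not at hprim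
        obtain ⟨B, hB, hnt⟩ := hprim
        unfold MulAction.IsTrivialBlock at hnt
        push Not at hnt
        refine PERM_step p S Ω B hB ?_ hnt.2 ?_ hs
        · rw [Set.not_subsingleton_iff]; exact hnt.1
        · intro S' Ω' _ _ _ _ _ _ hlt hs'
          exact IH S' Ω' (by omega) hs'
  intro S Ω _ _ _ _ _ _ hs
  exact key (Nat.card Ω + 1) S Ω (by omega) hs

end QS
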